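import Pool.Agent.P.MP_5c8462_an.Main

set_option autoImplicit false

namespace Pool.Agent.Results.MP_5c8462_an.BoxBound

open MeasureTheory

/-- The `k`-th Neumann eigenvalue (counted from `0`) by the min-max principle: the infimum of the
levels `M` such that some `k+1` functions of class `C^1`, linearly independent on `Ω`, span a space
on which the Rayleigh quotient is at most `M`. -/
noncomputable def mu {d : ℕ} (k : ℕ) (Ω : Set (EuclideanSpace ℝ (Fin d))) : ℝ :=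
  sInf {M | ∃ f : Fin (k + 1) → EuclideanSpace ℝ (Fin d) → ℝ, (∀ i, ContDiff ℝ 1 (f i)) ∧
    (∀ c : Fin (k + 1) → ℝ, (∀ x ∈ Ω, ∑ i, c i * f i x = 0) → c = 0) ∧
    ∀ c : Fin (k + 1) → ℝ, ∫ x in Ω, ‖fderiv ℝ (fun x => ∑ i, c i * f i x) x‖ ^ 2 ≤
      M * ∫ x in Ω, (∑ i, c i * f i x) ^ 2}

/-- Bounded convex domain. -/
def IsDom {d : ℕ} (Ω : Set (EuclideanSpace ℝ (Fin d))) : Prop :=
  Ω.Nonempty ∧ IsOpen Ω ∧ Convex ℝ Ω ∧ Bornology.IsBounded Ω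

/-- The optimal inclusion ratio. -/
noncomputable def alpha (k d : ℕ) : ℝ :=
  sInf {r | ∃ Ω₁ Ω₂ : Set (EuclideanSpace ℝ (Fin d)),
    IsDom Ω₁ ∧ IsDom Ω₂ ∧ Ω₁ ⊆ Ω₂ ∧ r = mu k Ω₁ / mu k Ω₂}

/-- Counting criterion: `k+1` frequency vectors of level at most `s` give `alpha k d ≤ s`. -/
theorem result (d k r q : ℕ) (hk : 1 ≤ k) (hr : 1 ≤ r) (hq : 1 ≤ q) (hd : r * q + 1 ≤ d)
    (S : Finset (ℕ × (Fin r → ℕ))) (hS : k + 1 ≤ S.card) (s : ℝ)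
    (hs : ∀ z ∈ S, (z.1 : ℝ) ^ 2 / k ^ 2 + (∑ i, (z.2 i : ℝ) ^ 2) / q ≤ s) :
    alpha k d ≤ s :=
  Pool.Agent.P.MP_5c8462_an.crit d k r q hk hr hq hd S hS s hs

/-- Instance `r = 1`, `q = d - 1`. -/
theorem cor_uniform (d k : ℕ) (hd : 3 ≤ d) (hk : 1 ≤ k) : alpha k d ≤ 9 / 16 :=
  Pool.Agent.P.MP_5c8462_an.nine d k hd hk

/-- Instance `d = 3`: strictly below the known bound `c(k,3) = (k/(k+1))^2`. -/
theorem cor_three (k : ℕ) (hk : 3 ≤ k) : alpha k 3 < (k / (k + 1)) ^ 2 :=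
  Pool.Agent.P.MP_5c8462_an.three k hk

/-- Instance with frequencies in `{0,1}^r`. -/
theorem cor_groups (d k r q : ℕ) (hk : 1 ≤ k) (hr : 1 ≤ r) (hq : 1 ≤ q) (hd : r * q + 1 ≤ d) :
    alpha k d ≤ 1 / 4 ^ r + r / q :=
  Pool.Agent.P.MP_5c8462_an.groups d k r q hk hr hq hd

end Pool.Agent.Results.MP_5c8462_an.BoxBound
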