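import Pool.Agent.P.MP_5c8462_an.Ord.Main

set_option autoImplicit false

namespace Pool.Agent.Results.MP_5c8462_an.FirstStep

open MeasureTheory

/-- The `k`-th Neumann eigenvalue (counted from `0`) by the min-max principle: the infimum of the
levels `M` such that some `k+1` functions of class `C^1`, linearly independent on `Ω`, span a space
on which the Rayleigh quotient is at most `M`. -/
noncomputable def mu {d : ℕ} (k : ℕ) (Ω : Set (EuclideanSpace ℝ (Fin d))) : ℝ :=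
  sInf {M | ∃ f : Fin (k + 1) → EuclideanSpace ℝ (Fin d) → ℝ, (∀ i, ContDiff ℝ 1 (f i)) ∧
    (∀ c : Fin (k + 1) → ℝ, (∀ x ∈ Ω, ∑ i, c i * f i x = 0) → c = 0) ∧
    ∀ c : Fin (k + 1) → ℝ, ∫ x in Ω, ‖fderiv ℝ (fun x => ∑ i, c i * f i x) x‖ ^ 2 ≤
      M * ∫ x in Ω, (∑ i, c i * f i x) ^ 2}

/-- Bounded convex domain. -/
def IsDom {d : ℕ} (Ω : Set (EuclideanSpace ℝ (Fin d))) : Prop :=
  Ω.Nonempty ∧ IsOpen Ω ∧ Convex ℝ Ω ∧ Bornology.IsBounded Ω

/-- The optimal inclusion ratio. -/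
noncomputable def alpha (k d : ℕ) : ℝ :=
  sInf {r | ∃ Ω₁ Ω₂ : Set (EuclideanSpace ℝ (Fin d)),
    IsDom Ω₁ ∧ IsDom Ω₂ ∧ Ω₁ ⊆ Ω₂ ∧ r = mu k Ω₁ / mu k Ω₂}

/-- In all sufficiently high dimensions the first ratio is the strict minimum of the sequence. -/
theorem result : ∃ d0 : ℕ, ∀ d k : ℕ, d0 ≤ d → 2 ≤ k → alpha 1 d < alpha k d :=
  Pool.Agent.P.MP_5c8462_an.Ord.first

end Pool.Agent.Results.MP_5c8462_an.FirstStep
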