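import Pool.Agent.P.MP_5c8462_an.Ord.Main

set_option autoImplicit false

namespace Pool.Agent.Results.MP_5c8462_an.Order

open MeasureTheory

/-- The `k`-th Neumann eigenvalue (counted from `0`) by the min-max principle: the infimum of the
levels `M` such that some `k+1` functions of class `C^1`, linearly independent on `Ω`, span a space
on which the Rayleigh quotient is at most `M`. -/
noncomputable def mu {d : ℕ} (k : ℕ) (Ω : Set (EuclideanSpace ℝ (Fin d))) : ℝ :=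
  sInf {M | ∃ f : Fin (k + 1) → EuclideanSpace ℝ (Fin d) → ℝ, (∀ i, ContDiff ℝ 1 (f i)) ∧
    (∀ c : Fin (k + 1) → ℝ, (∀ x ∈ Ω, ∑ i, c i * f i x = 0) → c = 0) ∧
    ∀ c : Fin (k + 1) → ℝ, ∫ x in Ω, ‖fderiv ℝ (fun x => ∑ i, c i * f i x) x‖ ^ 2 ≤
      M * ∫ x in Ω, (∑ i, c i * f i x) ^ 2}

/-- Bounded convex domain. -/
def IsDom {d : ℕ} (Ω : Set (EuclideanSpace ℝ (Fin d))) : Prop :=
  Ω.Nonempty ∧ IsOpen Ω ∧ Convex ℝ Ω ∧ Bornology.IsBounded Ω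

/-- The optimal inclusion ratio. -/
noncomputable def alpha (k d : ℕ) : ℝ :=
  sInf {r | ∃ Ω₁ Ω₂ : Set (EuclideanSpace ℝ (Fin d)),
    IsDom Ω₁ ∧ IsDom Ω₂ ∧ Ω₁ ⊆ Ω₂ ∧ r = mu k Ω₁ / mu k Ω₂}

/-- The order of magnitude of the optimal ratio, uniformly in the index and the dimension. -/
theorem result : ∃ c C : ℝ, 0 < c ∧ ∀ d k : ℕ, 2 ≤ d → 1 ≤ k →
    c * Real.log (1 + (min k d : ℕ)) ^ 2 / (d : ℝ) ^ 2 ≤ alpha k d ∧
      alpha k d ≤ C * Real.log (1 + (min k d : ℕ)) ^ 2 / (d : ℝ) ^ 2 :=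
  Pool.Agent.P.MP_5c8462_an.Ord.ord

/-- Consequence: monotonicity up to a universal factor. -/
theorem cor_quasi : ∃ C : ℝ, ∀ d k k' : ℕ, 2 ≤ d → 1 ≤ k → k ≤ k' →
    alpha k d ≤ C * alpha k' d :=
  Pool.Agent.P.MP_5c8462_an.Ord.quasi

/-- Consequence: strict monotonicity between polynomially separated indices. -/
theorem cor_sparse : ∃ A : ℕ, ∀ d k k' : ℕ, 1 ≤ k → (k + 1) ^ A ≤ k' → (k + 1) ^ A ≤ d →
    alpha k d < alpha k' d :=
  Pool.Agent.P.MP_5c8462_an.Ord.sparse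

end Pool.Agent.Results.MP_5c8462_an.Order
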